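import Pool.Agent.TS.K.Odd
import Pool.Agent.TS.K.Kill

/-!
# GJ/E-E1A: two lemmas on values of combinations of marks

`even_over`: marks of subgroups above a normal subgroup `M` take the same value at two cyclic
subgroups whose generators agree modulo `M`.  `mod_two`: the values at `t` and at `t ^ (2 ^ a)` are
congruent modulo `2`.
-/

namespace Pool.Agent.GJ

open MulAction Pool.Agent.H73.DU Pool.Agent.TS

private theorem e1a_smul {G : Type} [Group G] {M J : Subgroup G} [hM : M.Normal] (hJ : M ≤ J)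
    {s t : G} (h : s⁻¹ * t ∈ M) (y : G ⧸ J) : t • y = s • y := by
  induction y using QuotientGroup.induction_on with
  | H a =>
    change ((t * a : G) : G ⧸ J) = ((s * a : G) : G ⧸ J)
    refine (QuotientGroup.eq.2 ?_).symm
    have h1 := hJ (hM.conj_mem _ h a⁻¹)
    have h2 : (s * a)⁻¹ * (t * a) = a⁻¹ * (s⁻¹ * t) * a⁻¹⁻¹ := by group
    rw [h2]
    exact h1

private theorem e1a_pc {G : Type} [Group G] {M J : Subgroup G} [M.Normal] (hJ : M ≤ J)
    {s t : G} (h : s⁻¹ * t ∈ M) :
    pc J (Subgroup.zpowers s) = pc J (Subgroup.zpowers t) := by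
  have h1 : fx (G ⧸ J) (Subgroup.zpowers s) = fx (G ⧸ J) (Subgroup.zpowers t) := by
    ext y
    rw [fx_zpowers, fx_zpowers, e1a_smul hJ h y]
  unfold pc pch
  rw [h1]

theorem even_over {G : Type} [Group G] (M : Subgroup G) [M.Normal] {x : Subgroup G → ℤ}
    (hx : x ∈ RC {J : Subgroup G | M ≤ J}) {s t : G} (h : s⁻¹ * t ∈ M) :
    x (Subgroup.zpowers s) = x (Subgroup.zpowers t) := by
  unfold RC at hx
  induction hx using AddSubgroup.closure_induction with
  | mem f hf =>
    obtain ⟨J, hJ, rfl⟩ := hf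
    exact e1a_pc hJ h
  | zero => rfl
  | add f g _ _ hf hg =>
    rw [Pi.add_apply, Pi.add_apply, hf, hg]
  | neg f _ hf =>
    rw [Pi.neg_apply, Pi.neg_apply, hf]

theorem mod_two {G : Type} [Group G] {C : Set (Subgroup G)} (hC : ∀ J ∈ C, Finite (G ⧸ J))
    {x : Subgroup G → ℤ} (hx : x ∈ RC C) (t : G) (a : ℕ) :
    (2 : ℤ) ∣ x (Subgroup.zpowers t) - x (Subgroup.zpowers (t ^ 2 ^ a)) := by
  unfold RC at hx
  induction hx using AddSubgroup.closure_induction with
  | mem f hf =>
    obtain ⟨J, hJ, rfl⟩ := hf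
    haveI := hC J hJ
    exact pc_mod J t a
  | zero => simp
  | add f g _ _ hf hg =>
    have h1 := dvd_add hf hg
    have h2 : (f + g) (Subgroup.zpowers t) - (f + g) (Subgroup.zpowers (t ^ 2 ^ a)) =
        f (Subgroup.zpowers t) - f (Subgroup.zpowers (t ^ 2 ^ a)) +
          (g (Subgroup.zpowers t) - g (Subgroup.zpowers (t ^ 2 ^ a))) := by
      rw [Pi.add_apply, Pi.add_apply]
      ring
    rw [h2]
    exact h1
  | neg f _ hf =>
    have h2 : (-f) (Subgroup.zpowers t) - (-f) (Subgroup.zpowers (t ^ 2 ^ a)) =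
        -(f (Subgroup.zpowers t) - f (Subgroup.zpowers (t ^ 2 ^ a))) := by
      rw [Pi.neg_apply, Pi.neg_apply]
      ring
    rw [h2]
    exact (dvd_neg).2 hf

end Pool.Agent.GJ
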