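import Pool.Agent.GJ.R.Ind

/-!
# GJ/E-Van: the functions vanishing at the cyclic subgroups

If `v` is a combination of marks of subgroups of `H` which are open in `GQ` and vanishes at the cyclic
subgroups, the function induced by `v * (1 + χ)`, `χ` a `T`-trivial character, is in `ZT`: at the
decomposition groups of `T` it is twice the function induced by `v`.
-/

namespace Pool.Agent.GJ

open MulAction Pool.Agent.H73.DU Pool.Agent.H73.AL Pool.Agent.LD Pool.Agent.TS

private theorem Van_fin {H : Subgroup GQ} {J : Subgroup H}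
    (hJ : IsOpen ((J.map H.subtype : Subgroup GQ) : Set GQ)) : Finite (H ⧸ J) := by
  have h1 : Finite (GQ ⧸ J.map H.subtype) := fin_open hJ
  have h2 : (J.map H.subtype).index ≠ 0 := Subgroup.index_ne_zero_of_finite
  rw [Subgroup.index_map_subtype] at h2
  have h3 : J.index ≠ 0 := left_ne_zero_of_mul h2
  have h4 : J.FiniteIndex := ⟨h3⟩
  exact Subgroup.finite_quotient_of_finiteIndex

private theorem Van_RC {H : Subgroup GQ} [Finite (GQ ⧸ H)] {v : Subgroup H → ℤ}
    (hv : v ∈ RC {J : Subgroup H | IsOpen ((J.map H.subtype : Subgroup GQ) : Set GQ)}) :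
    iH H v ∈ RC {H : Subgroup GQ | IsOpen (H : Set GQ)} := by
  unfold RC at hv
  induction hv using AddSubgroup.closure_induction with
  | mem f hf =>
    obtain ⟨J, hJ, rfl⟩ := hf
    have h1 : Finite (H ⧸ J) := Van_fin hJ
    rw [iH_pc H J]
    exact AddSubgroup.subset_closure ⟨_, hJ, rfl⟩
  | zero => rw [map_zero]; exact AddSubgroup.zero_mem _
  | add f g _ _ hf hg => rw [map_add]; exact AddSubgroup.add_mem _ hf hg
  | neg f _ hf => rw [map_neg]; exact AddSubgroup.neg_mem _ hf

theorem van_ZT {T : Finset ℕ} {H : Subgroup GQ} [Finite (GQ ⧸ H)] {χ : GQ → ℤˣ}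
    (hT : TTr T H χ) {v : Subgroup H → ℤ}
    (hv : v ∈ RC {J : Subgroup H | IsOpen ((J.map H.subtype : Subgroup GQ) : Set GQ)})
    (h0 : ∀ t : H, v (Subgroup.zpowers t) = 0) : ZT T (iH H (v * tw H χ)) := by
  refine ⟨fun t => ?_, iH H v, Van_RC hv, fun P hP U hU => iH_T H hT v P hP U hU⟩
  have h1 := iH_zp H (x := v * tw H χ) (y := 0) (fun t => by
    rw [Pi.mul_apply, h0 t, zero_mul, Pi.zero_apply]) t
  rw [h1, map_zero, Pi.zero_apply]

end Pool.Agent.GJ
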