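import Pool.Agent.GJ.E.OddA
import Pool.Agent.TS.K.Odd
import Pool.Agent.TS.L.Com
import Pool.Agent.TS.L.Ext

/-!
# GJ/E-Odd: killers in `H`, or an element of a critical decomposition group

`kill_or`: `exists_odd` in the group `H` gives a subgroup `J` with an odd mark at `t`. Either `J ⊓ ker χ` has level
`i + 2`, or there is a critical place such that the elements of `NM` in its decomposition group are in `J` (`nrm_le`);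
then `com` and the element `u` of the hypothesis give the element `d`.
-/

namespace Pool.Agent.GJ

open MulAction Pool.Agent.H73.DU Pool.Agent.H73.AL Pool.Agent.LD Pool.Agent.TS

private theorem Odd_two {H : Subgroup GQ} {χ : GQ → ℤˣ} (hχ : Mulp H χ) {P : Pl}
    (h : NtAt H P χ) : (kr H χ).relIndex (H ⊓ P.D) = 2 := by
  obtain ⟨y, hyD, hyH, hy⟩ := h
  have h1 : ¬ Tr (H ⊓ P.D) χ := fun h2 => hy (h2 y ⟨hyH, hyD⟩)
  have h2 := kr_index (hχ.mono (inf_le_left : H ⊓ P.D ≤ H)) h1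
  rwa [kr_mono hχ inf_le_left, Subgroup.inf_relIndex_left] at h2

private theorem Odd_arith {i x c r : ℕ} (h : ¬ 2 ^ (i + 2) ∣ x * c * r) (hx : 2 ^ i ∣ x)
    (hc : c = 2) : ¬ 2 ^ (i + 1) ∣ x ∧ ¬ 2 ∣ r := by
  subst hc
  constructor
  · intro h1
    apply h
    have h2 : 2 ^ (i + 2) ∣ x * 2 := by
      have e : 2 ^ (i + 2) = 2 ^ (i + 1) * 2 := by ring
      rw [e]
      exact Nat.mul_dvd_mul h1 dvd_rfl
    exact h2.mul_right _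
  · intro h1
    apply h
    have e : 2 ^ (i + 2) = 2 ^ i * 2 * 2 := by ring
    rw [e]
    exact Nat.mul_dvd_mul (Nat.mul_dvd_mul hx dvd_rfl) h1

private theorem Odd_map {H N : Subgroup GQ} {s x : H}
    (h : x ∈ Subgroup.zpowers s ⊔ N.subgroupOf H) :
    (x : GQ) ∈ Subgroup.zpowers (s : GQ) ⊔ N := by
  have h1 : (x : GQ) ∈ (Subgroup.zpowers s ⊔ N.subgroupOf H).map H.subtype := ⟨x, h, rfl⟩
  rw [Subgroup.map_sup, MonoidHom.map_zpowers, Subgroup.subgroupOf_map_subtype] at h1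
  exact (sup_le_sup_left inf_le_left _ : Subgroup.zpowers (H.subtype s) ⊔ (N ⊓ H) ≤
    Subgroup.zpowers (H.subtype s) ⊔ N) h1

private theorem Odd_D {P : Pl} {u : GQ} (h : u ∈ decomp ℚ_[P.p] (emb P.p)) :
    P.g * u * P.g⁻¹ ∈ P.D := by
  have h1 := mem_cj (a := P.g⁻¹) h
  rwa [inv_inv] at h1

theorem kill_or {V T : Finset ℕ} {i : ℕ} {H NM N : Subgroup GQ} [NM.Normal] [N.Normal] (hH : Ci V T i H)
    {χ : GQ → ℤˣ} (hχ : IsChr H χ) (hv : VGood V T H χ) (hle : NM ≤ kr H χ)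
    (hN : IsOpen (N : Set GQ)) (hNM : N ≤ NM) (hsq : ∀ e ∈ NM, e * e ∈ N)
    (hu : ∀ (p : ℕ) [Fact p.Prime], p ∈ V → p ∉ T → ∃ u ∈ decomp ℚ_[p] (emb p), u ∈ NM ∧
        ∀ σ : GQ, σ * u * σ⁻¹ * u⁻¹ ∈ N → ∃ d ∈ decomp ℚ_[p] (emb p), d⁻¹ * σ ∈ NM) (t : H) :
    (∃ J : Subgroup H, N.subgroupOf H ≤ J ∧ Ci V T (i + 2) (J.map H.subtype ⊓ kr H χ) ∧
      ¬ (2 : ℤ) ∣ pc J (Subgroup.zpowers t)) ∨
    ∃ (a q : ℕ) (P : Pl) (d : H), ¬ 2 ∣ q ∧ Pin V T P ∧ Crit i H P ∧ (d : GQ) ∈ P.D ∧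
      (t : GQ) ^ (2 ^ a * q) ∈ N ∧ (d : GQ)⁻¹ * (t : GQ) ^ 2 ^ a ∈ NM := by
  have hfi : N.FiniteIndex := (nice_rat T).finiteIndex hN
  obtain ⟨a, q, J, hq, ht, hNJ, hodd, hn⟩ := exists_odd (N.subgroupOf H) t
  by_cases hC : Ci V T (i + 2) (J.map H.subtype ⊓ kr H χ)
  · exact Or.inl ⟨J, hNJ, hC, hodd⟩
  right
  have hNMH : NM ≤ H := hle.trans (kr_le H χ)
  have hNJ' : N ≤ J.map H.subtype := fun x hx => ⟨⟨x, hNMH (hNM hx)⟩, hNJ hx, rfl⟩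
  have hop : IsOpen ((J.map H.subtype ⊓ kr H χ : Subgroup GQ) : Set GQ) :=
    Subgroup.isOpen_mono (le_inf hNJ' (hNM.trans hle)) hN
  obtain ⟨P, hP, hPd⟩ : ∃ P : Pl, Pin V T P ∧
      ¬ 2 ^ (i + 2) ∣ (J.map H.subtype ⊓ kr H χ).relIndex P.D := by
    by_contra hcon
    push Not at hcon
    exact hC ⟨hop, hcon⟩
  rw [rel_three P.D (kr_le H χ)] at hPd
  obtain ⟨hcr, hr⟩ := Odd_arith hPd (hH.2 P hP) (Odd_two hχ.1 (hv P hP))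
  have hr0 : (J.map H.subtype).relIndex (kr H χ ⊓ P.D) ≠ 0 := by
    intro h
    exact hr (by rw [h]; exact dvd_zero _)
  have hB : NM ⊓ P.D ≤ J.map H.subtype := by
    refine nrm_le (kr H χ ⊓ P.D) (NM ⊓ P.D) (J.map H.subtype) N (inf_le_inf_right _ hle) ?_
      inferInstance hNJ' (fun b hb => hsq b hb.1) hr0 hr
    intro x hx b hb
    exact ⟨‹NM.Normal›.conj_mem b hb.1 x, P.D.mul_mem (P.D.mul_mem hx.2 hb.2) (P.D.inv_mem hx.2)⟩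
  obtain ⟨u, hud, huN, hu'⟩ := hu P.p hP.1 hP.2
  obtain ⟨v, hv', hvu⟩ := hB (show P.g * u * P.g⁻¹ ∈ NM ⊓ P.D from
    ⟨‹NM.Normal›.conj_mem u huN P.g, Odd_D hud⟩)
  have hvu' : (v : GQ) = P.g * u * P.g⁻¹ := hvu
  have h1 := Odd_map (hn v hv')
  have h2 : (P.g * u * P.g⁻¹) * (t : GQ) ^ 2 ^ a * (P.g * u * P.g⁻¹)⁻¹ ∈
      Subgroup.zpowers ((t : GQ) ^ 2 ^ a) ⊔ N := by
    rw [← hvu']
    exact h1
  have h3 : ((t : GQ) ^ 2 ^ a) ^ q ∈ N := ht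
  obtain ⟨d, hd, hd'⟩ := hu' _ (com NM N hsq (g := P.g) huN hq h3 h2)
  have h4 : (P.g * d * P.g⁻¹)⁻¹ * (t : GQ) ^ 2 ^ a ∈ NM := by
    have h5 := ‹NM.Normal›.conj_mem _ hd' P.g
    have e : P.g * (d⁻¹ * (P.g⁻¹ * (t : GQ) ^ 2 ^ a * P.g)) * P.g⁻¹ =
        (P.g * d * P.g⁻¹)⁻¹ * (t : GQ) ^ 2 ^ a := by group
    rwa [e] at h5
  have h6 : P.g * d * P.g⁻¹ ∈ H := by
    have h7 : (t : GQ) ^ 2 ^ a ∈ H := H.pow_mem t.2 _
    have h8 := H.mul_mem h7 (H.inv_mem (hNMH h4))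
    have e : (t : GQ) ^ 2 ^ a * ((P.g * d * P.g⁻¹)⁻¹ * (t : GQ) ^ 2 ^ a)⁻¹ =
        P.g * d * P.g⁻¹ := by group
    rwa [e] at h8
  refine ⟨a, q, P, ⟨P.g * d * P.g⁻¹, h6⟩, hq, hP, hcr, Odd_D hd, ?_, h4⟩
  rw [pow_mul]
  exact h3

end Pool.Agent.GJ
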