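import Pool.Agent.GJ.E.Gen
import Pool.Agent.GJ.E.Van
import Pool.Agent.GJ.E.E2
import Pool.Agent.GJ.E.Odd
import Pool.Agent.GJ.E.E1A

/-!
# GJ/E-E1: x even at the critical decomposition groups (paper E1)

`NM` is the normal open subgroup of the paper, `N` (inside the proof) comes from `exists_N` (TS/L/Ext).

PLAN.  `e1_x`: the value of `x` at `t` is even or there is a killer: `kill_or`; second case: `x (zpowers t) ≡ x (zpowers (t ^ 2 ^ a))` mod `2` (`mod_two`)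
`= x (zpowers d)` (`even_over` with `M = NM.subgroupOf H`), even by `he` (`d ^ q ∈ NM`, as `d ≡ t'` modulo `NM` and `t' ^ q ∈ N ≤ NM`).
`e1`: `exists_N` (TS/L/Ext) for `NM`, `N.index ≤ NM.index * 2 ^ NM.index`.  `lemK` in the group `H`, normal subgroup `N.subgroupOf H`, `n := 1` (`ovr_CN`),
`E J := Ci V T (i + 2) (J.map H.subtype ⊓ kr H χ)` restricted to ... (stable under smaller subgroups OVER `N` only!): use
`E J := ∃ J' : Subgroup H, J ≤ J' ∧ N.subgroupOf H ≤ J' ∧ Ci V T (i + 2) (J'.map H.subtype ⊓ kr H χ)`: stable under all smaller subgroups; under conjugation by `b : H`: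
`(cj b J').map ⊓ kr H χ` is `cj b` of `J'.map ⊓ kr H χ` (`Ci.cj`).  For `J` over `N` with `E J`: `J.map ⊓ kr H χ` is open and in `J'.map ⊓ kr H χ`, so in `Ci (i+2)` (`Ci.mono`).
`mc_split`, `gen_M2` (with `N`), `van_ZT`; and for `b`: closure induction, `iH_tw`, `kr J.map χ = J.map ⊓ kr H χ` (`kr_mono`), `pq_deep`.
-/

namespace Pool.Agent.GJ

open MulAction Pool.Agent.H73.DU Pool.Agent.H73.AL Pool.Agent.LD Pool.Agent.TS

theorem e1_x {V T : Finset ℕ} {i : ℕ} {H NM N : Subgroup GQ} [NM.Normal] [N.Normal] (hH : Ci V T i H)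
    {χ : GQ → ℤˣ} (hχ : IsChr H χ) (hv : VGood V T H χ) (hle : NM ≤ kr H χ)
    (hN : IsOpen (N : Set GQ)) (hNM : N ≤ NM) (hsq : ∀ e ∈ NM, e * e ∈ N)
    (hu : ∀ (p : ℕ) [Fact p.Prime], p ∈ V → p ∉ T → ∃ u ∈ decomp ℚ_[p] (emb p), u ∈ NM ∧
        ∀ σ : GQ, σ * u * σ⁻¹ * u⁻¹ ∈ N → ∃ d ∈ decomp ℚ_[p] (emb p), d⁻¹ * σ ∈ NM)
    {x : Subgroup H → ℤ} (hx : x ∈ RC {J : Subgroup H | NM.subgroupOf H ≤ J})
    (he : ∀ P : Pl, Pin V T P → Crit i H P → ∀ d : H, (d : GQ) ∈ P.D →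
      (∃ q : ℕ, ¬ 2 ∣ q ∧ (d : GQ) ^ q ∈ NM) → (2 : ℤ) ∣ x (Subgroup.zpowers d)) (t : H) :
    (2 : ℤ) ∣ x (Subgroup.zpowers t) ∨ ∃ J : Subgroup H, N.subgroupOf H ≤ J ∧
      Ci V T (i + 2) (J.map H.subtype ⊓ kr H χ) ∧ ¬ (2 : ℤ) ∣ pc J (Subgroup.zpowers t) := by
  have hNMo : IsOpen (NM : Set GQ) := Subgroup.isOpen_mono hNM hN
  have hNMH : NM ≤ H := hle.trans (kr_le H χ)
  rcases kill_or hH hχ hv hle hN hNM hsq hu t with h | ⟨a, q, P, d, hq, hP, hc, hd, h1, h2⟩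
  · exact Or.inr h
  · left
    have h3 : (2 : ℤ) ∣ x (Subgroup.zpowers t) - x (Subgroup.zpowers (t ^ 2 ^ a)) :=
      mod_two (fun J hJ => ovr_fin hNMo hNMH hJ) hx t a
    have h4 : x (Subgroup.zpowers d) = x (Subgroup.zpowers (t ^ 2 ^ a)) := by
      refine even_over (NM.subgroupOf H) hx ?_
      rw [Subgroup.mem_subgroupOf]
      exact h2
    have h5 : (2 : ℤ) ∣ x (Subgroup.zpowers d) := by
      refine he P hP hc d hd ⟨q, hq, ?_⟩
      have h6 : (((d : GQ) : GQ ⧸ NM)) = (((t : GQ) ^ 2 ^ a : GQ) : GQ ⧸ NM) :=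
        QuotientGroup.eq.2 h2
      have h7 : ((((t : GQ) ^ 2 ^ a) ^ q : GQ) : GQ ⧸ NM) = 1 := by
        rw [QuotientGroup.eq_one_iff, ← pow_mul]
        exact hNM h1
      rw [← QuotientGroup.eq_one_iff, QuotientGroup.mk_pow, h6, ← QuotientGroup.mk_pow]
      exact h7
    rw [h4] at h5
    have h8 := dvd_add h3 h5
    rwa [sub_add_cancel] at h8

theorem e1 {V T : Finset ℕ} (hTp : ∀ p ∈ T, p.Prime) (h2 : 2 ∈ T) {i n B : ℕ}
    (hV : ∃ P : Pl, Pin V T P) {H : Subgroup GQ} [Finite (GQ ⧸ H)] (hH : Ci V T i H)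
    {χ : GQ → ℤˣ} (hχ : GT V T i H χ) (hvg : VGood V T H χ) (NM : Subgroup GQ) [NM.Normal]
    (hNM : IsOpen (NM : Set GQ)) (hk : NM ≤ kr H χ) (x : Subgroup H → ℤ)
    (hx : x ∈ RC {J : Subgroup H | NM.subgroupOf H ≤ J})
    (he : ∀ P : Pl, Pin V T P → Crit i H P → ∀ d : H, (d : GQ) ∈ P.D →
      (∃ q : ℕ, ¬ 2 ∣ q ∧ (d : GQ) ^ q ∈ NM) → (2 : ℤ) ∣ x (Subgroup.zpowers d))
    (hn : n ∣ 2 * H.index) (hB : 4 * (NM.index * 2 ^ NM.index) ≤ B) :
    iH H (x * tw H χ) ∈ ES V T (i + 1) n B := by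
  obtain ⟨N, hNn, hNo, hNM', hsq, hidx, hu⟩ := exists_N (V := V) hTp h2 NM hNM
  have hNMH : NM ≤ H := hk.trans (kr_le H χ)
  have hNH : N ≤ H := hNM'.trans hNMH
  have hB' : 4 * N.index ≤ B := (Nat.mul_le_mul_left 4 hidx).trans hB
  have hfN : Finite (GQ ⧸ N) := fin_open hNo
  have hfN2 : N.FiniteIndex := Subgroup.finiteIndex_of_finite_quotient
  have hfN3 : (N.subgroupOf H).FiniteIndex := inferInstance
  have hsub : ({J : Subgroup H | NM.subgroupOf H ≤ J} : Set (Subgroup H)) ⊆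
      {J : Subgroup H | N.subgroupOf H ≤ J} := by
    intro J hJ g hg
    exact hJ (Subgroup.mem_subgroupOf.2 (hNM' (Subgroup.mem_subgroupOf.1 hg)))
  have hx' : x ∈ RC {J : Subgroup H | N.subgroupOf H ≤ J} :=
    AddSubgroup.closure_mono (fun f hf => by
      obtain ⟨J, hJ, rfl⟩ := hf
      exact ⟨J, hsub hJ, rfl⟩) hx
  have hM : Mulp H χ := hχ.chr.1
  set E : Subgroup H → Prop := fun J => ∃ J' : Subgroup H, J ≤ J' ∧ N.subgroupOf H ≤ J' ∧
    Ci V T (i + 2) (J'.map H.subtype ⊓ kr H χ) with hE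
  have hK : x ∈ MC (CN (N.subgroupOf H) 1) {U : Subgroup H | ∃ t : H, U = Subgroup.zpowers t} ⊔
      RC {J | J ∈ CN (N.subgroupOf H) 1 ∧ E J} := by
    refine lemK (N.subgroupOf H) 1 E ?_ ?_ _ ?_ ?_
    · rintro J J1 hJ ⟨J', h1, h3, h4⟩
      exact ⟨J', hJ.trans h1, h3, h4⟩
    · rintro J b ⟨J', h1, h3, h4⟩
      refine ⟨cj b J', Subgroup.map_mono h1, ?_, ?_⟩
      · intro g hg
        refine mem_cj_iff.2 ⟨b * g * b⁻¹, h3 ?_, ?_⟩
        · exact Subgroup.Normal.conj_mem inferInstance g hg b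
        · group
      · have h5 : (cj b J').map H.subtype ⊓ kr H χ = cj (b : GQ) (J'.map H.subtype ⊓ kr H χ) := by
          ext g
          rw [Subgroup.mem_inf, Subgroup.mem_map, mem_cj_iff, mem_kr hM]
          constructor
          · rintro ⟨⟨y, hy, hyg⟩, hg, hg'⟩
            obtain ⟨u, hu, rfl⟩ := mem_cj_iff.1 hy
            subst hyg
            refine ⟨(u : GQ), ⟨⟨u, hu, rfl⟩, ?_⟩, rfl⟩
            refine (mem_kr hM).2 ⟨u.2, ?_⟩
            have h6 : ((H.subtype (b⁻¹ * u * b) : GQ)) = (b : GQ)⁻¹ * (u : GQ) * (b : GQ) := rfl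
            rw [h6, hM _ (H.mul_mem (H.inv_mem b.2) u.2) _ b.2,
              hM _ (H.inv_mem b.2) _ u.2, mul_right_comm, ← hM _ (H.inv_mem b.2) _ b.2,
              inv_mul_cancel, hM.one, one_mul] at hg'
            exact hg'
          · rintro ⟨u, ⟨⟨y, hy, rfl⟩, hu⟩, rfl⟩
            have hu' := (mem_kr hM).1 hu
            refine ⟨⟨b⁻¹ * y * b, mem_cj hy, rfl⟩, ?_, ?_⟩
            · exact H.mul_mem (H.mul_mem (H.inv_mem b.2) y.2) b.2
            · have h6 : ((H.subtype y : GQ)) = (y : GQ) := rfl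
              rw [h6] at hu' ⊢
              rw [hM _ (H.mul_mem (H.inv_mem b.2) y.2) _ b.2,
                hM _ (H.inv_mem b.2) _ y.2, mul_right_comm, ← hM _ (H.inv_mem b.2) _ b.2,
                inv_mul_cancel, hM.one, one_mul]
              exact hu'.2
        rw [h5]
        exact h4.cj b
    · rw [← ovr_CN]
      exact hx'
    · rintro U ⟨t, rfl⟩
      rcases e1_x hH hχ.chr hvg hk hNo hNM' hsq hu hx he t with h | ⟨J, h1, h3, h4⟩
      · exact Or.inl h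
      · exact Or.inr ⟨J, h1, ⟨J, le_rfl, h1, h3⟩, h4⟩
  rw [← ovr_CN] at hK
  obtain ⟨a, ha, b, hb, v, hv, hv0, hxe⟩ := mc_split (fun J hJ => hJ.1) hK hx'
  have hsum : iH H (x * tw H χ) = iH H (a * tw H χ) + iH H (b * tw H χ) + iH H (v * tw H χ) := by
    rw [hxe, add_mul, add_mul, map_add, map_add]
  rw [hsum]
  refine add_mem (add_mem ?_ ?_) ?_
  · exact gen_M2 hTp h2 hV hH hχ hNo hNH hn hB' ha
  · unfold RC at hb
    clear hsum hxe
    induction hb using AddSubgroup.closure_induction with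
    | mem f hf =>
      obtain ⟨J, ⟨hJ, J', h1, h3, h4⟩, rfl⟩ := hf
      have hJN : N.subgroupOf H ≤ J := hJ
      have hfJ : Finite (H ⧸ J) := ovr_fin hNo hNH hJN
      obtain ⟨ho, -, hi⟩ := over_open hNo hNH hJN
      have hJH : J.map H.subtype ≤ H := by
        rintro _ ⟨y, -, rfl⟩
        exact y.2
      rw [iH_tw H J hM]
      refine pq_deep hTp h2 hV hH hχ hJH ho ?_ hn ((Nat.mul_le_mul_left 4 hi).trans hB')
      rw [kr_mono hM hJH]
      refine h4.mono (inf_le_inf_right _ (Subgroup.map_mono h1)) ?_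
      rw [Subgroup.coe_inf]
      exact ho.inter hχ.chr.2
    | zero =>
      rw [zero_mul, map_zero]
      exact zero_mem _
    | add f g _ _ hf hg =>
      rw [add_mul, map_add]
      exact add_mem hf hg
    | neg f _ hf =>
      rw [neg_mul, map_neg]
      exact neg_mem hf
  · refine mem_ZT (van_ZT hχ.ttr (over_RC hNo hNH hv) fun t => hv0 _ ⟨t, rfl⟩)

end Pool.Agent.GJ
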