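import Pool.Agent.GJ.Bas
import Pool.Agent.TS.K.Kill

/-!
# GJ/E-Ovr: the subgroups of `H` over `N`
-/

namespace Pool.Agent.GJ

open MulAction Pool.Agent.H73.DU Pool.Agent.H73.AL Pool.Agent.LD Pool.Agent.TS

theorem over_open {H N : Subgroup GQ} (hN : IsOpen (N : Set GQ)) (hle : N ≤ H) {J : Subgroup H}
    (hJ : N.subgroupOf H ≤ J) : IsOpen ((J.map H.subtype : Subgroup GQ) : Set GQ) ∧
      N ≤ J.map H.subtype ∧ (J.map H.subtype).index ≤ N.index := by
  have h1 : N ≤ J.map H.subtype := by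
    intro g hg
    exact ⟨⟨g, hle hg⟩, hJ (Subgroup.mem_subgroupOf.mpr hg), rfl⟩
  refine ⟨Subgroup.isOpen_mono h1 hN, h1, Nat.le_of_dvd ?_ (Subgroup.index_dvd_of_le h1)⟩
  have h2 : Finite (GQ ⧸ N) := fin_open hN
  exact Nat.pos_of_ne_zero Subgroup.index_ne_zero_of_finite

theorem ovr_fin {H N : Subgroup GQ} (hN : IsOpen (N : Set GQ)) (hle : N ≤ H) {J : Subgroup H}
    (hJ : N.subgroupOf H ≤ J) : Finite (H ⧸ J) := by
  have h1 : Finite (GQ ⧸ (J.map H.subtype : Subgroup GQ)) := fin_open (over_open hN hle hJ).1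
  have h2 : (J.map H.subtype).index ≠ 0 := Subgroup.index_ne_zero_of_finite
  rw [Subgroup.index_map_subtype] at h2
  have h3 : J.FiniteIndex := ⟨left_ne_zero_of_mul h2⟩
  exact Subgroup.finite_quotient_of_finiteIndex

theorem ovr_cls {G : Type} [Group G] (M : Subgroup G) [M.Normal] [M.FiniteIndex] :
    Cls {J : Subgroup G | M ≤ J} := by
  have h1 : {J : Subgroup G | M ≤ J} = CN M 1 := by
    ext J
    exact ⟨fun h => ⟨h, one_dvd _⟩, fun h => h.1⟩
  rw [h1]
  exact cls_CN M 1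

theorem ovr_CN {G : Type} [Group G] (M : Subgroup G) : {J : Subgroup G | M ≤ J} = CN M 1 := by
  ext J
  exact ⟨fun h => ⟨h, one_dvd _⟩, fun h => h.1⟩

end Pool.Agent.GJ
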