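import Pool.Agent.TS.K.Kill

/-!
# GJ/E-Spl: the part vanishing on `𝒰` is again a combination of marks

`x = m + b`, `m ∈ MC C 𝒰`, `b ∈ RC C'` (`AddSubgroup.mem_sup`); induction over the closure `MC C 𝒰` (`AddSubgroup.closure_induction`):
`m = a + v`, `a ∈ closure (first two kinds)`, `v` vanishes on `𝒰`.  Then `v = x - a - b ∈ RC C`.
-/

namespace Pool.Agent.GJ

open Pool.Agent.H73.DU Pool.Agent.TS

variable {G : Type} [Group G]

/-- the span of twice the marks and of the marks of the subgroups in `C` of index `2` in another subgroup -/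
def M2 (C : Set (Subgroup G)) : AddSubgroup (Subgroup G → ℤ) :=
  AddSubgroup.closure {f | (∃ H ∈ C, f = (2 : ℤ) • pc H) ∨
    (∃ H ∈ C, (∃ Y : Subgroup G, H ≤ Y ∧ H.relIndex Y = 2) ∧ f = pc H)}

theorem M2_le (C : Set (Subgroup G)) : M2 C ≤ RC C := by
  refine (AddSubgroup.closure_le _).2 ?_
  rintro f (⟨H, hH, rfl⟩ | ⟨H, hH, _, rfl⟩)
  · exact (RC C).zsmul_mem (AddSubgroup.subset_closure ⟨H, hH, rfl⟩) 2
  · exact AddSubgroup.subset_closure ⟨H, hH, rfl⟩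

private theorem spl_mc (C : Set (Subgroup G)) (𝒰 : Set (Subgroup G)) {m : Subgroup G → ℤ}
    (hm : m ∈ MC C 𝒰) : ∃ a ∈ M2 C, ∃ v : Subgroup G → ℤ, (∀ U ∈ 𝒰, v U = 0) ∧ m = a + v := by
  unfold MC at hm
  induction hm using AddSubgroup.closure_induction with
  | mem f hf =>
    rcases hf with hf | hf | hf
    · exact ⟨f, AddSubgroup.subset_closure (Or.inl hf), 0, fun _ _ => rfl, (add_zero f).symm⟩
    · exact ⟨f, AddSubgroup.subset_closure (Or.inr hf), 0, fun _ _ => rfl, (add_zero f).symm⟩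
    · exact ⟨0, zero_mem _, f, hf, (zero_add f).symm⟩
  | zero => exact ⟨0, zero_mem _, 0, fun _ _ => rfl, (add_zero 0).symm⟩
  | add p q _ _ hp hq =>
    obtain ⟨a, ha, v, hv, rfl⟩ := hp
    obtain ⟨a', ha', v', hv', rfl⟩ := hq
    refine ⟨a + a', add_mem ha ha', v + v', fun U hU => ?_, by abel⟩
    rw [Pi.add_apply, hv U hU, hv' U hU, add_zero]
  | neg p _ hp =>
    obtain ⟨a, ha, v, hv, rfl⟩ := hp
    refine ⟨-a, neg_mem ha, -v, fun U hU => ?_, by abel⟩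
    rw [Pi.neg_apply, hv U hU, neg_zero]

theorem mc_split {C C' : Set (Subgroup G)} (hC : C' ⊆ C) {𝒰 : Set (Subgroup G)}
    {x : Subgroup G → ℤ} (hx : x ∈ MC C 𝒰 ⊔ RC C') (hR : x ∈ RC C) :
    ∃ a ∈ M2 C, ∃ b ∈ RC C', ∃ v ∈ RC C, (∀ U ∈ 𝒰, v U = 0) ∧ x = a + b + v := by
  obtain ⟨m, hm, b, hb, hx⟩ := AddSubgroup.mem_sup.1 hx
  obtain ⟨a, ha, v, hv, rfl⟩ := spl_mc C 𝒰 hm
  have hRC : RC C' ≤ RC C :=
    AddSubgroup.closure_mono fun f ⟨H, hH, hf⟩ => ⟨H, hC hH, hf⟩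
  have h1 : v = x - a - b := by
    rw [← hx]
    abel
  refine ⟨a, ha, b, hb, v, ?_, hv, ?_⟩
  · rw [h1]
    exact sub_mem (sub_mem hR (M2_le C ha)) (hRC hb)
  · rw [← hx]
    abel

end Pool.Agent.GJ
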