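import Pool.Agent.GJ.Bas
import Pool.Agent.TS.L.Ev

/-!
# GJ/E-OddA: two lemmas on groups

`nrm_le`: `B` acts on `A ⧸ (J ⊓ A)`, a set of odd size, through a group of exponent two, so it has a fixed point.
`rel_three`: the index in a chain of four subgroups.
-/

namespace Pool.Agent.GJ

open MulAction Pool.Agent.H73.DU Pool.Agent.H73.AL Pool.Agent.LD Pool.Agent.TS

variable {V T : Finset ℕ}

/-- a normal subgroup acting through an elementary abelian 2-group on an orbit of odd size -/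
theorem nrm_le {G : Type} [Group G] (A B J N : Subgroup G) (hBA : B ≤ A)
    (hn : ∀ a ∈ A, ∀ b ∈ B, a * b * a⁻¹ ∈ B) (hN : N.Normal) (hNJ : N ≤ J)
    (hsq : ∀ b ∈ B, b * b ∈ N) (hfin : J.relIndex A ≠ 0) (hodd : ¬ 2 ∣ J.relIndex A) : B ≤ J := by
  classical
  have hcard : Nat.card (A ⧸ (J.subgroupOf A)) = J.relIndex A := rfl
  have hF : Finite (A ⧸ (J.subgroupOf A)) := by
    refine Nat.finite_of_card_ne_zero ?_
    rw [hcard]
    exact hfin
  set H : Subgroup (Equiv.Perm (A ⧸ (J.subgroupOf A))) :=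
    (B.subgroupOf A).map (toPermHom A (A ⧸ (J.subgroupOf A))) with hH
  have hp : IsPGroup 2 H := by
    rintro ⟨h, hh⟩
    refine ⟨1, ?_⟩
    obtain ⟨b, hb, rfl⟩ := Subgroup.mem_map.1 hh
    refine Subtype.ext (Equiv.ext fun x => ?_)
    obtain ⟨a, rfl⟩ := QuotientGroup.mk_surjective x
    rw [pow_one, sq]
    change (toPermHom A (A ⧸ (J.subgroupOf A)) b * toPermHom A (A ⧸ (J.subgroupOf A)) b)
      (a : A ⧸ (J.subgroupOf A)) = (a : A ⧸ (J.subgroupOf A))
    rw [← map_mul]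
    change ((b * b * a : A) : A ⧸ (J.subgroupOf A)) = (a : A ⧸ (J.subgroupOf A))
    symm
    rw [QuotientGroup.eq, Subgroup.mem_subgroupOf]
    have h1 : (b : G) * b ∈ N := hsq b (Subgroup.mem_subgroupOf.1 hb)
    have h2 := hN.conj_mem _ h1 ((a : G)⁻¹)
    rw [inv_inv] at h2
    refine hNJ ?_
    have h3 : ((a⁻¹ * (b * b * a) : A) : G) = (a : G)⁻¹ * ((b : G) * b) * a := by
      push_cast
      group
    rw [h3]
    exact h2
  have hfix : (MulAction.fixedPoints H (A ⧸ (J.subgroupOf A))).Nonempty := by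
    refine hp.nonempty_fixed_point_of_prime_not_dvd_card (p := 2) _ ?_
    rw [hcard]
    exact hodd
  obtain ⟨x, hx⟩ := hfix
  obtain ⟨a, rfl⟩ := QuotientGroup.mk_surjective x
  intro b hb
  have h1 : (a : G) * b * (a : G)⁻¹ ∈ B := hn a a.2 b hb
  have h2 := hx ⟨toPermHom A (A ⧸ (J.subgroupOf A)) ⟨_, hBA h1⟩,
    Subgroup.mem_map.2 ⟨_, Subgroup.mem_subgroupOf.2 h1, rfl⟩⟩
  change (((⟨_, hBA h1⟩ : A) * a : A) : A ⧸ (J.subgroupOf A)) = (a : A ⧸ (J.subgroupOf A)) at h2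
  have h3 := QuotientGroup.eq.1 h2.symm
  rw [Subgroup.mem_subgroupOf] at h3
  have h4 : ((a⁻¹ * ((⟨_, hBA h1⟩ : A) * a) : A) : G) = b := by
    push_cast
    group
  rwa [h4] at h3

theorem rel_three {H K J : Subgroup GQ} (D : Subgroup GQ) (hK : K ≤ H) :
    (J ⊓ K).relIndex D = H.relIndex D * K.relIndex (H ⊓ D) * J.relIndex (K ⊓ D) := by
  have h1 : K.relIndex (H ⊓ D) = (K ⊓ D).relIndex (H ⊓ D) := by
    rw [← Subgroup.inf_relIndex_right K (H ⊓ D), ← inf_assoc, inf_eq_left.2 hK]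
  have h2 : J.relIndex (K ⊓ D) = (J ⊓ K ⊓ D).relIndex (K ⊓ D) := by
    rw [← Subgroup.inf_relIndex_right J (K ⊓ D), ← inf_assoc]
  rw [← Subgroup.inf_relIndex_right (J ⊓ K) D, ← Subgroup.inf_relIndex_right H D, h1, h2]
  rw [← Subgroup.relIndex_mul_relIndex (J ⊓ K ⊓ D) (K ⊓ D) D
    (by rw [inf_assoc]; exact inf_le_right) inf_le_right]
  rw [← Subgroup.relIndex_mul_relIndex (K ⊓ D) (H ⊓ D) D
    (inf_le_inf_right D hK) inf_le_right]
  ring

end Pool.Agent.GJ
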